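import Pool.Agent.Helper96.TS.D55.Base

/-!
# The finite part for 5 labels and 5 colours: regular families
-/

set_option autoImplicit false
set_option maxRecDepth 100000

namespace Pool.Agent.Helper96.TS.D55

open Pool.Agent.Helper96.TS
open Pool.Agent.Helper28.SO
open Helper13.TS (SpreadOut)

/-- key, weights, minimisers -/
def reg0 : List (ℕ × ℕ × ℕ) := [(0x100000000000000000000000000000000000000000000000000000000000000000000000000000000000000000000000000010000000000000000000100011, 0x40000000040000000040000000041000000, 0x6db412448240004920)]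

theorem reg0_ok : reg0.all (fun x => rgC 5 5 x.1 x.2.1 x.2.2) = true := by
  decide +kernel

theorem reg0_crt : ∀ x ∈ reg0, Crt 5 5 x.1 := fun x hx =>
  crt_of_rgC (by norm_num) (by norm_num) (List.all_eq_true.1 reg0_ok x hx)

/-- key, weights, minimisers -/
def reg1 : List (ℕ × ℕ × ℕ) := [(0x100000000000000100120000000000000000000000080000000, 0x430410410430010400430c10400430030c3, 0x4932096000e481c088)]

theorem reg1_ok : reg1.all (fun x => rgC 5 5 x.1 x.2.1 x.2.2) = true := by
  decide +kernel

theorem reg1_crt : ∀ x ∈ reg1, Crt 5 5 x.1 := fun x hx =>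
  crt_of_rgC (by norm_num) (by norm_num) (List.all_eq_true.1 reg1_ok x hx)

/-- key, weights, minimisers -/
def reg2 : List (ℕ × ℕ × ℕ) := []

theorem reg2_ok : reg2.all (fun x => rgC 5 5 x.1 x.2.1 x.2.2) = true := by
  decide +kernel

theorem reg2_crt : ∀ x ∈ reg2, Crt 5 5 x.1 := fun x hx =>
  crt_of_rgC (by norm_num) (by norm_num) (List.all_eq_true.1 reg2_ok x hx)

/-- key, weights, minimisers -/
def reg3 : List (ℕ × ℕ × ℕ) := [(0x10140000800000000000000000000000080000000, 0x811010020400830810800c20040c20000c2, 0x2530027204e101c210)]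

theorem reg3_ok : reg3.all (fun x => rgC 5 5 x.1 x.2.1 x.2.2) = true := by
  decide +kernel

theorem reg3_crt : ∀ x ∈ reg3, Crt 5 5 x.1 := fun x hx =>
  crt_of_rgC (by norm_num) (by norm_num) (List.all_eq_true.1 reg3_ok x hx)

/-- key, weights, minimisers -/
def reg4 : List (ℕ × ℕ × ℕ) := [(0x1880000800000000000000000000000080000000, 0x41041041041001041001041001041001041, 0x5380a7004e021c050)]

theorem reg4_ok : reg4.all (fun x => rgC 5 5 x.1 x.2.1 x.2.2) = true := by
  decide +kernel

theorem reg4_crt : ∀ x ∈ reg4, Crt 5 5 x.1 := fun x hx =>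
  crt_of_rgC (by norm_num) (by norm_num) (List.all_eq_true.1 reg4_ok x hx)

end Pool.Agent.Helper96.TS.D55
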