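import Pool.Agent.Helper96.TS.D55.H0
import Pool.Agent.Helper96.TS.D55.H1
import Pool.Agent.Helper96.TS.D55.H2
import Pool.Agent.Helper96.TS.D55.H3
import Pool.Agent.Helper96.TS.D55.H4
import Pool.Agent.Helper96.TS.D55.Reg
import Pool.Agent.Helper96.TS.D55.Tab
import Pool.Agent.Helper96.TS.D54.Main

/-!
# The finite part for 5 labels and 5 colours: the theorem
-/

set_option autoImplicit false
set_option maxRecDepth 100000

namespace Pool.Agent.Helper96.TS.D55

open Pool.Agent.Helper96.TS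
open Pool.Agent.Helper28.SO
open Helper13.TS (SpreadOut)

theorem keys0 : H0.keys = reg0.map (fun x => x.1) ++ tb0.map (fun x => x.1) := by
  decide +kernel

theorem crt0 : ∀ K ∈ H0.keys, Crt 5 5 K := by
  intro K hK
  rw [keys0, List.mem_append, List.mem_map, List.mem_map] at hK
  rcases hK with ⟨x, hx, rfl⟩ | ⟨x, hx, rfl⟩
  · exact reg0_crt x hx
  · exact tb0_crt x hx

theorem keys1 : H1.keys = reg1.map (fun x => x.1) ++ tb1.map (fun x => x.1) := by
  decide +kernel

theorem crt1 : ∀ K ∈ H1.keys, Crt 5 5 K := by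
  intro K hK
  rw [keys1, List.mem_append, List.mem_map, List.mem_map] at hK
  rcases hK with ⟨x, hx, rfl⟩ | ⟨x, hx, rfl⟩
  · exact reg1_crt x hx
  · exact tb1_crt x hx

theorem keys2 : H2.keys = reg2.map (fun x => x.1) ++ tb2.map (fun x => x.1) := by
  decide +kernel

theorem crt2 : ∀ K ∈ H2.keys, Crt 5 5 K := by
  intro K hK
  rw [keys2, List.mem_append, List.mem_map, List.mem_map] at hK
  rcases hK with ⟨x, hx, rfl⟩ | ⟨x, hx, rfl⟩
  · exact reg2_crt x hx
  · exact tb2_crt x hx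

theorem keys3 : H3.keys = reg3.map (fun x => x.1) ++ tb3.map (fun x => x.1) := by
  decide +kernel

theorem crt3 : ∀ K ∈ H3.keys, Crt 5 5 K := by
  intro K hK
  rw [keys3, List.mem_append, List.mem_map, List.mem_map] at hK
  rcases hK with ⟨x, hx, rfl⟩ | ⟨x, hx, rfl⟩
  · exact reg3_crt x hx
  · exact tb3_crt x hx

theorem keys4 : H4.keys = reg4.map (fun x => x.1) ++ tb4.map (fun x => x.1) := by
  decide +kernel

theorem crt4 : ∀ K ∈ H4.keys, Crt 5 5 K := by
  intro K hK
  rw [keys4, List.mem_append, List.mem_map, List.mem_map] at hK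
  rcases hK with ⟨x, hx, rfl⟩ | ⟨x, hx, rfl⟩
  · exact reg4_crt x hx
  · exact tb4_crt x hx

theorem heads : ∀ p ∈ PP 4 5, (∀ i j : Fin 5, i ≤ j → p i ≤ p j) → p = H0.lam ∨ p = H1.lam ∨ p = H2.lam ∨ p = H3.lam ∨ p = H4.lam := by
  decide +kernel

/-- **5 labels, 5 colours.** -/
theorem main (v : Fin 5 → Fin 5 → ℕ) (hv : ∀ k, ∑ c, v k c = 4) (hc : ∀ c, ∑ k, v k c = 4) (hs : SpreadOut 5 v) : TRealized 5 5 v := by
  obtain ⟨w, ρ, hw, hsw, hi, hT, hsum, hmono, hst, hphi, hwL⟩ := normal_form (m := 4) v hv hs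
  apply hT
  have key : (∃ zs ∈ prs, SpreadOut 5 (fun k => mergeV zs.1 zs.2 (w k))) ∨
      Crt (4 + 1) 5 (∑ k, 2 ^ k5 (5 - 1) (code (w k))) := by
    rcases heads (w 0) ((mem_PP _).2 (hw 0)) (fun i j hij => hmono hij) with h | h | h | h | h
    · exact (H0.main w hw hsw h hi hphi (fun c => by rw [hsum, hc]) hwL).imp id (crt0 _)
    · exact (H1.main w hw hsw h hi hphi (fun c => by rw [hsum, hc]) hwL).imp id (crt1 _)
    · exact (H2.main w hw hsw h hi hphi (fun c => by rw [hsum, hc]) hwL).imp id (crt2 _)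
    · exact (H3.main w hw hsw h hi hphi (fun c => by rw [hsum, hc]) hwL).imp id (crt3 _)
    · exact (H4.main w hw hsw h hi hphi (fun c => by rw [hsum, hc]) hwL).imp id (crt4 _)
  rcases key with ⟨zs, -, h⟩ | h
  · refine TRealized.merge (by norm_num) (by norm_num) zs.1 zs.2 _ ?_
    exact D54.main _ (fun k => by rw [sum_mergeV']; exact hw k) h
  · exact tRealized_of_crt h hnd w hw hi rfl

end Pool.Agent.Helper96.TS.D55
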